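import Mathlib

/-! MP_8d2143_an, part 2a: the series `D = - ∑ f_i (r_i - r_(i-1))` in a Banach algebra. -/

set_option autoImplicit false

namespace Pool.Agent.Helper18.AIU

open Filter Topology

theorem hgeo (k : ℕ) : HasSum (fun i : ℕ => 1 / 8 * (1 / 2 : ℝ) ^ (i + k)) (1 / 4 * (1 / 2) ^ k) := by
  have h1 := (hasSum_geometric_two).mul_left (1 / 8 * (1 / 2 : ℝ) ^ k)
  have h2 : (fun i : ℕ => 1 / 8 * (1 / 2 : ℝ) ^ (i + k)) = fun i => 1 / 8 * (1 / 2 : ℝ) ^ k * (1 / 2) ^ i := by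
    funext i
    rw [pow_add]
    ring
  have h3 : (1 / 4 * (1 / 2) ^ k : ℝ) = 1 / 8 * (1 / 2 : ℝ) ^ k * 2 := by ring
  rw [h2, h3]
  exact h1

theorem tail_lemma {B : Type*} [NormedRing B] [CompleteSpace B] (f r p : ℕ → B)
    (hff : ∀ i j, i ≤ j → f j * f i = f j) (hff' : ∀ i j, i ≤ j → f i * f j = f j)
    (hrm : ∀ i j, i ≤ j → r j * r i = r i) (hp0 : p 0 = 0) (hps : ∀ k, p (k + 1) = r k)
    (hpr : ∀ i, r i * p i = p i) (hn : ∀ i, ‖f i * r i‖ ≤ 1 / 8 * (1 / 2) ^ i) (h1p : ∀ i, ‖1 - p i‖ ≤ 1) :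
    ∃ (D : B) (T : ℕ → B), ‖D‖ ≤ 1 / 4 ∧ (∀ j, ‖T j‖ ≤ 1 / 4 * (1 / 2) ^ (j + 1)) ∧
      (∀ j, f j * D = -(f j * r j) - T j) ∧ (∀ j, T j * r j = 0) ∧
      Tendsto (fun n => -∑ i ∈ Finset.range n, f i * r i * (1 - p i)) atTop (𝓝 D) := by
  obtain ⟨a, ha⟩ : ∃ a : ℕ → B, ∀ i, a i = f i * r i * (1 - p i) := ⟨_, fun i => rfl⟩
  have haeq : ∀ i, a i = f i * (r i - p i) := by
    intro i
    rw [ha, mul_assoc, mul_sub (r i), mul_one, hpr]
  have han : ∀ i, ‖a i‖ ≤ 1 / 8 * (1 / 2) ^ i := by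
    intro i
    rw [ha]
    calc ‖f i * r i * (1 - p i)‖ ≤ ‖f i * r i‖ * ‖1 - p i‖ := norm_mul_le _ _
      _ ≤ (1 / 8 * (1 / 2) ^ i) * 1 := mul_le_mul (hn i) (h1p i) (norm_nonneg _) (by positivity)
      _ = _ := mul_one _
  have h0 : HasSum (fun i : ℕ => 1 / 8 * (1 / 2 : ℝ) ^ i) (1 / 4) := by
    have := hgeo 0
    simpa using this
  have has : Summable a := Summable.of_norm_bounded (g := fun i : ℕ => 1 / 8 * (1 / 2 : ℝ) ^ i) h0.summable han
  have hTs : ∀ j, Summable fun i => a (i + (j + 1)) := fun j => (summable_nat_add_iff (j + 1)).2 has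
  have hsum : ∀ j n, n ≤ j + 1 → ∑ i ∈ Finset.range n, f j * a i = f j * p n := by
    intro j n
    induction n with
    | zero => intro _; rw [hp0]; simp
    | succ n ih =>
        intro hn
        rw [Finset.sum_range_succ, ih (by omega), haeq, ← mul_assoc, hff n j (by omega), hps n, ← mul_add]
        congr 1
        abel
  refine ⟨-∑' i, a i, fun j => ∑' i, a (i + (j + 1)), ?_, ?_, ?_, ?_, ?_⟩
  · rw [norm_neg]
    exact tsum_of_norm_bounded h0 han
  · intro j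
    exact tsum_of_norm_bounded (hgeo (j + 1)) fun i => han _
  · intro j
    have h1 : ∑' i, a i = ∑ i ∈ Finset.range (j + 1), a i + ∑' i, a (i + (j + 1)) :=
      (has.sum_add_tsum_nat_add (j + 1)).symm
    have h2 : f j * ∑' i, a (i + (j + 1)) = ∑' i, a (i + (j + 1)) := by
      rw [← (hTs j).tsum_mul_left]
      refine tsum_congr fun i => ?_
      rw [ha, ← mul_assoc, ← mul_assoc, hff' j (i + (j + 1)) (by omega)]
    rw [mul_neg, h1, mul_add, Finset.mul_sum, hsum j (j + 1) le_rfl, h2, hps j]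
    abel
  · intro j
    show (∑' i, a (i + (j + 1))) * r j = 0
    rw [← (hTs j).tsum_mul_right]
    have h5 : ∀ i, a (i + (j + 1)) * r j = 0 := by
      intro i
      have h4 : p (i + (j + 1)) = r (i + j) := hps (i + j)
      rw [ha, h4, mul_assoc _ (1 - r (i + j)) (r j), sub_mul, one_mul, hrm j (i + j) (by omega), sub_self,
        mul_zero]
    rw [tsum_congr h5, tsum_zero]
  · have h6 : (fun n => -∑ i ∈ Finset.range n, f i * r i * (1 - p i)) = fun n => -∑ i ∈ Finset.range n, a i := by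
      funext n
      simp only [ha]
    rw [h6]
    exact has.hasSum.tendsto_sum_nat.neg

end Pool.Agent.Helper18.AIU
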