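import Pool.Agent.Helper18.AIU.Emb
import Pool.Agent.Helper18.AIU.Tail

/-! MP_8d2143_an, part 2: an increasing sequence of projections can be continued by an increasing sequence of
projections which absorbs a given element. -/

set_option autoImplicit false

namespace Pool.Agent.Helper18.AIU

open Unitization Filter Topology

/-- the previous member of a sequence -/
def prev {B : Type*} [Zero B] (r : ℕ → B) : ℕ → B
  | 0 => 0
  | (k + 1) => r k

variable {A : Type*} [NonUnitalCStarAlgebra A]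

theorem fst_lim (D : Unitization ℂ A) (s : ℕ → Unitization ℂ A) (hs : ∀ n, fstHom ℂ A (s n) = 0)
    (h : Tendsto s atTop (𝓝 D)) : fstHom ℂ A D = 0 := by
  have h5 : Isometry (io : A → Unitization ℂ A) := isometry_inr (𝕜 := ℂ) (A := A)
  have hcl : IsClosed (Set.range (io : A → Unitization ℂ A)) := h5.isClosedEmbedding.isClosed_range
  have h6 : D ∈ Set.range (io : A → Unitization ℂ A) :=
    hcl.mem_of_tendsto h (Eventually.of_forall fun n => exists_io (hs n))
  obtain ⟨z, hz⟩ := h6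
  rw [← hz]
  exact fst_io z

/-- the norm of `f * x` -/
theorem norm_f (e z : A) : ‖(1 - io e) * io z‖ = ‖z - e * z‖ := by
  rw [sub_mul, one_mul, ← io_mul, ← io_sub, io_norm]

/-- the two relations of complements of an increasing sequence -/
theorem compl_mul (e e' : A) (h : e' * e = e) :
    (1 - io e') * (1 - io e) = 1 - io e' := by
  have h1 : io e' * io e = io e := by rw [← io_mul, h]
  calc (1 - io e') * (1 - io e) = 1 - io e' - io e + io e' * io e := by noncomm_ring
    _ = 1 - io e' := by rw [h1]; abel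

/-- the element `Y = 1 + D` of an increasing sequence -/
theorem exists_Y (e r : ℕ → A) (he : ∀ n, Pj (e n)) (hr : ∀ n, Pj (r n))
    (hemm : ∀ n m, n ≤ m → e m * e n = e n) (hrmm : ∀ n m, n ≤ m → r m * r n = r n)
    (her : ∀ n, ‖r n - e n * r n‖ ≤ 1 / 8 * (1 / 2) ^ n) :
    ∃ Y : Unitization ℂ A, ‖Y - 1‖ ≤ 1 / 4 ∧ fstHom ℂ A Y = 1 ∧ (∀ n, (1 - io (e n)) * Y * io (r n) = 0) ∧
      ∀ (n : ℕ) (x : A), ‖(1 - io (e n)) * Y * io x‖ ≤ ‖x - e n * x‖ + 1 / 4 * (1 / 2) ^ n * ‖x‖ := by
  have hrp : ∀ i, io (r i) * prev (fun k => io (r k)) i = prev (fun k => io (r k)) i := by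
    intro i
    cases i with
    | zero => show io (r 0) * 0 = 0; rw [mul_zero]
    | succ k =>
        show io (r (k + 1)) * io (r k) = io (r k)
        rw [← io_mul, hrmm k (k + 1) (Nat.le_succ k)]
  have hpp : ∀ i, Pj (prev (fun k => io (r k)) i) := by
    intro i
    cases i with
    | zero => exact ⟨mul_zero _, star_zero _⟩
    | succ k => exact io_pj (hr k)
  obtain ⟨D, T, hDn, hTn, hfD, hTr, hlim⟩ := tail_lemma (fun i => 1 - io (e i)) (fun i => io (r i))
    (prev fun k => io (r k)) (fun i j hij => compl_mul _ _ (hemm i j hij))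
    (fun i j hij => by
      have h1 := congrArg star (compl_mul _ _ (hemm i j hij))
      have h2 := (io_pj (he i)).one_sub.2.star_eq
      have h3 := (io_pj (he j)).one_sub.2.star_eq
      rw [star_mul, h2, h3] at h1
      exact h1)
    (fun i j hij => by rw [← io_mul, hrmm i j hij]) rfl (fun k => rfl) hrp
    (fun i => by rw [norm_f]; exact her i) (fun i => (hpp i).one_sub.norm_le)
  have hDf : fstHom ℂ A D = 0 := by
    refine fst_lim D _ (fun n => ?_) hlim
    rw [map_neg, map_sum, Finset.sum_eq_zero, neg_zero]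
    intro i _
    rw [map_mul, map_mul, fst_io, mul_zero, zero_mul]
  have hfY : ∀ j (b : Unitization ℂ A), (1 - io (e j)) * (1 + D) * b =
      (1 - io (e j)) * b - (1 - io (e j)) * io (r j) * b - T j * b := by
    intro j b
    have h1 := hfD j
    have h2 : (1 - io (e j)) * (1 + D) = (1 - io (e j)) + (1 - io (e j)) * D := by
      rw [mul_add, mul_one]
    rw [h2, h1]
    noncomm_ring
  refine ⟨1 + D, ?_, ?_, ?_, ?_⟩
  · rw [add_sub_cancel_left]
    exact hDn
  · rw [map_add, map_one, hDf, add_zero]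
  · intro n
    have h10 : io (r n) * io (r n) = io (r n) := (io_pj (hr n)).1.eq
    rw [hfY, hTr, sub_zero, mul_assoc (1 - io (e n)) (io (r n)) (io (r n)), h10, sub_self]
  · intro n x
    rw [hfY]
    have h13 : ‖(1 - io (e n)) * io (r n) * io x‖ ≤ 1 / 8 * (1 / 2) ^ n * ‖x‖ := by
      refine (norm_mul_le _ _).trans ?_
      rw [io_norm, norm_f]
      exact mul_le_mul_of_nonneg_right (her n) (norm_nonneg _)
    have h14 : ‖T n * io x‖ ≤ 1 / 4 * (1 / 2) ^ (n + 1) * ‖x‖ := by
      refine (norm_mul_le _ _).trans ?_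
      rw [io_norm]
      exact mul_le_mul_of_nonneg_right (hTn n) (norm_nonneg _)
    have h15 := (norm_sub_le ((1 - io (e n)) * io x - (1 - io (e n)) * io (r n) * io x) (T n * io x)).trans
      (add_le_add (norm_sub_le ((1 - io (e n)) * io x) ((1 - io (e n)) * io (r n) * io x)) le_rfl)
    rw [norm_f] at h15
    refine h15.trans ?_
    have h16 : (1 / 2 : ℝ) ^ (n + 1) = (1 / 2) ^ n * (1 / 2) := pow_succ _ _
    rw [h16] at h14
    linarith

/-- **Absorption** -/
theorem absorb (hH : HasPj A) (r : ℕ → A) (hr : ∀ n, Pj (r n)) (hrm : ∀ n, r (n + 1) * r n = r n) (x : A) :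
    ∃ q : ℕ → A, (∀ n, Pj (q n)) ∧ (∀ n m, n ≤ m → q m * q n = q n) ∧ (∀ n, q n * r n = r n) ∧
      (∀ ε : ℝ, 0 < ε → ∃ n, ‖x - q n * x‖ ≤ ε) := by
  obtain ⟨e, he, hem, her, hex⟩ := exists_e hH r x
  have hemm := mono_of_succ (fun n => (he n).1.eq) hem
  have hrmm := mono_of_succ (fun n => (hr n).1.eq) hrm
  obtain ⟨Y, hYn, hY1, hYr, hYx⟩ := exists_Y e r he hr hemm hrmm her
  have key := fun j => cut (e j) (he j) Y hYn hY1
  choose q hq hq1 hq2 hq3 using key
  refine ⟨q, hq, ?_, ?_, ?_⟩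
  · intro n m hnm
    refine hq2 m (q n) ?_
    have h8 := compl_mul _ _ (hemm n m hnm)
    calc (1 - io (e m)) * Y * io (q n) = ((1 - io (e m)) * (1 - io (e n))) * Y * io (q n) := by rw [h8]
      _ = (1 - io (e m)) * ((1 - io (e n)) * Y * io (q n)) := by simp only [mul_assoc]
      _ = 0 := by rw [hq1 n, mul_zero]
  · intro n
    exact hq2 n (r n) (hYr n)
  · intro ε hε
    have hb : ∀ n, ‖x - q n * x‖ ≤ (3 * (1 + ‖x‖)) * (1 / 2) ^ n := by
      intro n
      have h11 := hYx n x
      have h12 := hex n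
      have h17 := hq3 n x
      have hp : (0 : ℝ) < (1 / 2) ^ n := by positivity
      have hx : 0 ≤ ‖x‖ := norm_nonneg x
      nlinarith [mul_nonneg hp.le hx]
    obtain ⟨n, hn⟩ := exists_pow_lt_of_lt_one (show 0 < ε / (3 * (1 + ‖x‖)) by positivity)
      (show (1 / 2 : ℝ) < 1 by norm_num)
    refine ⟨n, (hb n).trans ?_⟩
    have h18 : 0 < 3 * (1 + ‖x‖) := by positivity
    calc (3 * (1 + ‖x‖)) * (1 / 2) ^ n ≤ (3 * (1 + ‖x‖)) * (ε / (3 * (1 + ‖x‖))) :=
          mul_le_mul_of_nonneg_left hn.le h18.le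
      _ = ε := mul_div_cancel₀ _ h18.ne'

end Pool.Agent.Helper18.AIU
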