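import Pool.Agent.Helper18.AIU.Equiv

/-! MP_8d2143_an, part 6: from a net of selfadjoint elements which commute eventually to a net which is
eventually a left unit for each of its members. -/

set_option autoImplicit false

namespace Pool.Agent.Helper18.AIU

open Filter Topology Unitization

/-- the cut off function -/
noncomputable def gf (t : ℝ) : ℝ := max 0 (min 1 (4 * t - 1))
/-- the larger cut off function -/
noncomputable def kf (t : ℝ) : ℝ := max 0 (min 1 (8 * t - 1))
/-- the truncated inverse -/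
noncomputable def mf (t : ℝ) : ℝ := (1 - min t (1 / 2))⁻¹

theorem gf_cont : Continuous gf := by unfold gf; fun_prop
theorem kf_cont : Continuous kf := by unfold kf; fun_prop

theorem mf_pos (t : ℝ) : 0 < 1 - min t (1 / 2) := by
  have : min t (1 / 2) ≤ 1 / 2 := min_le_right _ _
  linarith

theorem mf_cont : Continuous mf := by
  unfold mf
  refine Continuous.inv₀ (by fun_prop) fun t => (mf_pos t).ne'

theorem gf_zero : gf 0 = 0 := by unfold gf; norm_num
theorem kf_zero : kf 0 = 0 := by unfold kf; norm_num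

theorem gf_nonneg (t : ℝ) : 0 ≤ gf t := le_max_left _ _
theorem gf_le_one (t : ℝ) : gf t ≤ 1 := max_le zero_le_one (min_le_left _ _)

theorem gf_one {t : ℝ} (h : 1 / 2 ≤ t) : gf t = 1 := by
  unfold gf
  rw [min_eq_left (by linarith), max_eq_right zero_le_one]

theorem kf_gf (t : ℝ) : kf t * gf t = gf t := by
  rcases le_total t (1 / 4) with h | h
  · have : gf t = 0 := by
      unfold gf
      exact max_eq_left ((min_le_right _ _).trans (by linarith))
    rw [this, mul_zero]
  · have : kf t = 1 := by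
      unfold kf
      rw [min_eq_left (by linarith), max_eq_right zero_le_one]
    rw [this, one_mul]

theorem mf_gf (t : ℝ) : mf t * ((1 - t) * (1 - gf t)) = 1 - gf t := by
  rcases le_total t (1 / 2) with h | h
  · have h1 : 1 - t ≠ 0 := by
      have := mf_pos t
      rw [min_eq_left h] at this
      exact this.ne'
    unfold mf
    rw [min_eq_left h, ← mul_assoc, inv_mul_cancel₀ h1, one_mul]
  · rw [gf_one h, sub_self, mul_zero, mul_zero]

theorem mf_bound (t : ℝ) : ‖mf t‖ ≤ 2 := by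
  have h1 : 1 / 2 ≤ 1 - min t (1 / 2) := by
    have : min t (1 / 2) ≤ 1 / 2 := min_le_right _ _
    linarith
  unfold mf
  rw [Real.norm_eq_abs, abs_of_pos (inv_pos.2 (mf_pos t))]
  rw [inv_le_comm₀ (mf_pos t) two_pos]
  linarith

theorem mfgf_bound (t : ℝ) : ‖mf t * (1 - gf t)‖ ≤ 2 := by
  rw [norm_mul]
  have h1 : ‖1 - gf t‖ ≤ 1 := by
    rw [Real.norm_eq_abs, abs_le]
    constructor <;> linarith [gf_nonneg t, gf_le_one t]
  calc ‖mf t‖ * ‖1 - gf t‖ ≤ 2 * 1 := mul_le_mul (mf_bound t) h1 (norm_nonneg _) two_pos.le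
    _ = 2 := by norm_num

section unital

variable {B : Type*} [CStarAlgebra B]

theorem cfc_G (c : B) (hc : IsSelfAdjoint c) : cfc (fun t => 1 - gf t) c = 1 - cfc gf c := by
  rw [cfc_sub (fun _ => (1 : ℝ)) gf c (by fun_prop) gf_cont.continuousOn, cfc_const_one ℝ c]

theorem cfc_L (c : B) (hc : IsSelfAdjoint c) : cfc (fun t : ℝ => 1 - t) c = 1 - c := by
  rw [cfc_sub (fun _ => (1 : ℝ)) (fun t => t) c (by fun_prop) (by fun_prop), cfc_const_one ℝ c, cfc_id' ℝ c]

theorem G_cont : Continuous (fun t => 1 - gf t) := continuous_const.sub gf_cont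

theorem c1 (c : B) (hc : IsSelfAdjoint c) (x : B) : ‖x - cfc gf c * x‖ ≤ 2 * ‖x - c * x‖ := by
  have hmg : Continuous (fun t => mf t * (1 - gf t)) := mf_cont.mul G_cont
  have hL : Continuous (fun t : ℝ => 1 - t) := by fun_prop
  have h1 : cfc (fun t => mf t * (1 - gf t)) c * (1 - c) = 1 - cfc gf c := by
    rw [← cfc_G c hc, ← cfc_L c hc,
      ← cfc_mul (fun t => mf t * (1 - gf t)) (fun t => 1 - t) c hmg.continuousOn hL.continuousOn]
    congr 1
    ext t
    have := mf_gf t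
    linear_combination this
  have h2 : x - cfc gf c * x = cfc (fun t => mf t * (1 - gf t)) c * (x - c * x) := by
    have : x - cfc gf c * x = (1 - cfc gf c) * x := by rw [sub_mul, one_mul]
    rw [this, ← h1, mul_assoc, sub_mul, one_mul]
  rw [h2]
  refine (norm_mul_le _ _).trans (mul_le_mul_of_nonneg_right ?_ (norm_nonneg _))
  exact norm_cfc_le two_pos.le fun t _ => mfgf_bound t

theorem c2 (c d : B) (hd : IsSelfAdjoint d) (hcd : Commute c d)
    (h : ‖(1 - d) * cfc kf c‖ < 1 / 2) : cfc gf d * cfc gf c = cfc gf c := by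
  have hL : Continuous (fun t : ℝ => 1 - t) := by fun_prop
  have hLG : Continuous (fun t : ℝ => (1 - t) * (1 - gf t)) := hL.mul G_cont
  have h1 : cfc mf d * ((1 - d) * cfc (fun t => 1 - gf t) d) = cfc (fun t => 1 - gf t) d := by
    rw [← cfc_L d hd, ← cfc_mul (fun t => 1 - t) (fun t => 1 - gf t) d hL.continuousOn G_cont.continuousOn,
      ← cfc_mul mf (fun t => (1 - t) * (1 - gf t)) d mf_cont.continuousOn hLG.continuousOn]
    congr 1
    ext t
    exact mf_gf t
  have h2 : cfc kf c * cfc gf c = cfc gf c := by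
    rw [← cfc_mul _ _ c kf_cont.continuousOn gf_cont.continuousOn]
    congr 1
    ext t
    exact kf_gf t
  have h3 : Commute (cfc (fun t => 1 - gf t) d) (cfc kf c) :=
    ((hcd.cfc_real kf).symm).cfc_real _
  have h4 : cfc (fun t => 1 - gf t) d * cfc gf c =
      cfc mf d * ((1 - d) * cfc kf c) * (cfc (fun t => 1 - gf t) d * cfc gf c) := by
    calc cfc (fun t => 1 - gf t) d * cfc gf c
        = (cfc mf d * ((1 - d) * cfc (fun t => 1 - gf t) d)) * (cfc kf c * cfc gf c) := by rw [h1, h2]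
      _ = cfc mf d * (1 - d) * (cfc (fun t => 1 - gf t) d * cfc kf c) * cfc gf c := by
          simp only [mul_assoc]
      _ = cfc mf d * (1 - d) * (cfc kf c * cfc (fun t => 1 - gf t) d) * cfc gf c := by rw [h3.eq]
      _ = _ := by simp only [mul_assoc]
  have h5 : cfc (fun t => 1 - gf t) d * cfc gf c = 0 := by
    by_contra hne
    have hpos : 0 < ‖cfc (fun t => 1 - gf t) d * cfc gf c‖ := norm_pos_iff.2 hne
    have h6 : ‖cfc mf d‖ ≤ 2 := norm_cfc_le two_pos.le fun t _ => mf_bound t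
    have h7 : ‖cfc (fun t => 1 - gf t) d * cfc gf c‖ ≤
        (2 * ‖(1 - d) * cfc kf c‖) * ‖cfc (fun t => 1 - gf t) d * cfc gf c‖ := by
      conv_lhs => rw [h4]
      refine (norm_mul_le _ _).trans (mul_le_mul_of_nonneg_right ?_ (norm_nonneg _))
      exact (norm_mul_le _ _).trans (mul_le_mul_of_nonneg_right h6 (norm_nonneg _))
    nlinarith
  rw [cfc_G d hd, sub_mul, one_mul] at h5
  exact (sub_eq_zero.1 h5).symm

end unital

universe u

variable {A : Type u} [NonUnitalCStarAlgebra A]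

theorem io_selfAdjoint {c : A} (hc : IsSelfAdjoint c) : IsSelfAdjoint (io c) := by
  rw [isSelfAdjoint_iff, ← io_star, hc.star_eq]

/-- the cut off of an element of `A` -/
noncomputable def gA (c : A) : A := cfcₙ gf c

theorem io_gA (c : A) : io (gA c) = cfc gf (io c) := Unitization.real_cfcₙ_eq_cfc_inr c gf gf_zero

theorem norm_gA (c : A) : ‖gA c‖ ≤ 1 := by
  rw [← io_norm, io_gA]
  refine norm_cfc_le zero_le_one fun t _ => ?_
  rw [Real.norm_eq_abs, abs_le]
  constructor <;> linarith [gf_nonneg t, gf_le_one t]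

theorem gA_near (c : A) (hc : IsSelfAdjoint c) (x : A) : ‖x - gA c * x‖ ≤ 2 * ‖x - c * x‖ := by
  have h3 := c1 (io c) (io_selfAdjoint hc) (io x)
  rwa [← io_gA, ← io_mul, ← io_mul, ← io_sub, ← io_sub, io_norm, io_norm] at h3

theorem gA_absorb (c d : A) (hd : IsSelfAdjoint d) (hcd : d * c = c * d)
    (h : ‖cfcₙ kf c - d * cfcₙ kf c‖ < 1 / 2) : gA d * gA c = gA c := by
  have hk : io (cfcₙ kf c) = cfc kf (io c) := Unitization.real_cfcₙ_eq_cfc_inr c kf kf_zero
  apply io_inj
  rw [io_mul, io_gA, io_gA]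
  refine c2 (io c) (io d) (io_selfAdjoint hd) ?_ ?_
  · show io c * io d = io d * io c
    rw [← io_mul, ← io_mul, hcd]
  · rw [← hk, norm_f]
    exact h

/-- the order on the cut off elements -/
@[reducible] def gord (T : Set A) : Preorder T where
  le a b := a = b ∨ b.1 * a.1 = a.1
  le_refl _ := Or.inl rfl
  le_trans a b c := by
    rintro (rfl | h1) (rfl | h2)
    · exact Or.inl rfl
    · exact Or.inr h2
    · exact Or.inr h1
    · exact Or.inr (le_trans' h1 h2)

theorem net_of_family (S : Set A) (hne : S.Nonempty) (hS : ∀ c ∈ S, IsSelfAdjoint c)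
    (h : ∀ c ∈ S, ∀ d ∈ S, ∀ (F : Finset A) (δ : ℝ), 0 < δ →
      ∃ e ∈ S, e * c = c * e ∧ e * d = d * e ∧ ∀ x ∈ F, ‖x - e * x‖ ≤ δ) :
    ∃ (Λ : Type u) (_ : Preorder Λ) (_ : IsDirected Λ (· ≤ ·)) (_ : Nonempty Λ) (a : Λ → A),
      (∀ i, ∀ᶠ j in atTop, a j * a i = a i) ∧ ∀ x : A, Tendsto (fun i => a i * x) atTop (𝓝 x) := by
  classical
  have key : ∀ c ∈ S, ∀ d ∈ S, ∀ (x : A) (ε : ℝ), 0 < ε →
      ∃ e ∈ S, gA e * gA c = gA c ∧ gA e * gA d = gA d ∧ ‖x - gA e * x‖ ≤ ε := by
    intro c hc d hd x ε hε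
    obtain ⟨e, he, h1, h2, h3⟩ := h c hc d hd {cfcₙ kf c, cfcₙ kf d, x} (min (1 / 4) (ε / 2))
      (lt_min (by norm_num) (by positivity))
    have h4 := h3 (cfcₙ kf c) (by simp)
    have h5 := h3 (cfcₙ kf d) (by simp)
    have h6 := h3 x (by simp)
    have h7 : min (1 / 4) (ε / 2) ≤ 1 / 4 := min_le_left _ _
    have h8 : min (1 / 4) (ε / 2) ≤ ε / 2 := min_le_right _ _
    refine ⟨e, he, gA_absorb c e (hS e he) h1 (by linarith),
      gA_absorb d e (hS e he) h2 (by linarith), ?_⟩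
    have h9 := gA_near e (hS e he) x
    linarith
  let T : Set A := {a | ∃ c ∈ S, a = gA c}
  let _ : Preorder T := gord T
  have hdir : IsDirected T (· ≤ ·) := by
    refine ⟨fun p q => ?_⟩
    obtain ⟨a, c, hc, rfl⟩ := p
    obtain ⟨b, d, hd, rfl⟩ := q
    obtain ⟨e, he, h1, h2, -⟩ := key c hc d hd 0 1 one_pos
    exact ⟨⟨gA e, e, he, rfl⟩, Or.inr h1, Or.inr h2⟩
  have hnon : Nonempty T := by
    obtain ⟨c, hc⟩ := hne
    exact ⟨⟨gA c, c, hc, rfl⟩⟩
  refine ⟨T, inferInstance, hdir, hnon, fun a => a.1, ?_, ?_⟩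
  · rintro ⟨a, c, hc, rfl⟩
    obtain ⟨e, he, h1, -, -⟩ := key c hc c hc 0 1 one_pos
    refine (eventually_ge_atTop (⟨gA e, e, he, rfl⟩ : T)).mono ?_
    rintro b (h2 | h2)
    · show b.1 * gA c = gA c
      rw [← h2]
      exact h1
    · exact le_trans' h1 h2
  · intro x
    rw [Metric.tendsto_nhds]
    intro ε hε
    obtain ⟨c, hc⟩ := hne
    obtain ⟨e, he, -, -, h1⟩ := key c hc c hc x (ε / 3) (by positivity)
    refine (eventually_ge_atTop (⟨gA e, e, he, rfl⟩ : T)).mono ?_
    rintro b (h2 | h2)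
    · rw [dist_comm, dist_eq_norm, ← h2]
      show ‖x - gA e * x‖ < ε
      linarith
    · have h3 : b.1 * gA e = gA e := h2
      have h4 : ‖b.1‖ ≤ 1 := by
        obtain ⟨b, d, hd, rfl⟩ := b
        exact norm_gA d
      have h5 : x - b.1 * x = (x - gA e * x) - b.1 * (x - gA e * x) := by
        rw [mul_sub, ← mul_assoc, h3]
        abel
      rw [dist_comm, dist_eq_norm, h5]
      have h6 : ‖b.1 * (x - gA e * x)‖ ≤ 1 * (ε / 3) :=
        (norm_mul_le _ _).trans (mul_le_mul h4 h1 (norm_nonneg _) zero_le_one)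
      calc ‖(x - gA e * x) - b.1 * (x - gA e * x)‖ ≤ ‖x - gA e * x‖ + ‖b.1 * (x - gA e * x)‖ := norm_sub_le _ _
        _ ≤ ε / 3 + 1 * (ε / 3) := add_le_add h1 h6
        _ < ε := by linarith

end Pool.Agent.Helper18.AIU
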