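import Mathlib

/-! MP_8d2143_an: increasing approximate identities of projections, part 1: the explicit projection onto the
kernel of `f * Y` for a projection `f` and an element `Y` near `1`. -/

set_option autoImplicit false

namespace Pool.Agent.Helper18.AIU

/-- projections -/
def Pj {R : Type*} [Mul R] [Star R] (p : R) : Prop := IsIdempotentElem p ∧ IsSelfAdjoint p

theorem Pj.norm_le {R : Type*} [NonUnitalNormedRing R] [StarRing R] [CStarRing R] {p : R} (h : Pj p) :
    ‖p‖ ≤ 1 := by
  have h1 : ‖p‖ = ‖p‖ * ‖p‖ := by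
    conv_lhs => rw [← h.1.eq]
    conv_lhs => rw [show p * p = star p * p by rw [h.2.star_eq]]
    exact CStarRing.norm_star_mul_self
  by_contra hcon
  push Not at hcon
  nlinarith [norm_nonneg p]

theorem Pj.one_sub {R : Type*} [Ring R] [StarRing R] {p : R} (h : Pj p) : Pj (1 - p) := by
  refine ⟨h.1.one_sub, ?_⟩
  rw [isSelfAdjoint_iff, star_sub, star_one, h.2.star_eq]

/-- **Lemma Q**: the projection `c` onto the orthogonal complement of the kernel of `f * Y`. -/
theorem exists_cut {B : Type*} [NormedRing B] [StarRing B] [CStarRing B] [CompleteSpace B]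
    (f Y : B) (hf : Pj f) (hY : ‖Y - 1‖ ≤ 1 / 4) :
    ∃ c : B, Pj c ∧ f * Y * c = f * Y ∧ (∀ z, f * Y * z = 0 → c * z = 0) ∧
      (∀ z, ‖c * z‖ ≤ 3 * ‖f * Y * z‖) ∧
      (∀ (S : Type) [Ring S] (φ : B →+* S), φ f = 1 → φ Y = 1 → φ (star Y) = 1 → φ c = 1) := by
  have hff : f * f = f := hf.1.eq
  have hfs : star f = f := hf.2.star_eq
  have hfn : ‖f‖ ≤ 1 := hf.norm_le
  have h1n : ‖(1 : B)‖ ≤ 1 := Pj.norm_le ⟨by simp [IsIdempotentElem], by simp [isSelfAdjoint_iff]⟩
  have hYn : ‖Y‖ ≤ 5 / 4 := by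
    calc ‖Y‖ = ‖(Y - 1) + 1‖ := by rw [sub_add_cancel]
      _ ≤ ‖Y - 1‖ + ‖(1 : B)‖ := norm_add_le _ _
      _ ≤ 5 / 4 := by linarith
  have hYs : ‖star Y‖ ≤ 5 / 4 := by rwa [norm_star]
  set t : B := f * (1 - Y * star Y) * f with ht
  have hYY : ‖1 - Y * star Y‖ ≤ 9 / 16 := by
    have h2 : 1 - Y * star Y = -((Y - 1) * star Y + star (Y - 1)) := by
      rw [star_sub, star_one]
      noncomm_ring
    rw [h2, norm_neg]
    calc ‖(Y - 1) * star Y + star (Y - 1)‖ ≤ ‖(Y - 1) * star Y‖ + ‖star (Y - 1)‖ := norm_add_le _ _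
      _ ≤ ‖Y - 1‖ * ‖star Y‖ + ‖Y - 1‖ := by
          rw [norm_star]
          exact add_le_add (norm_mul_le _ _) le_rfl
      _ ≤ 1 / 4 * (5 / 4) + 1 / 4 := by
          refine add_le_add (mul_le_mul hY hYs (norm_nonneg _) (by norm_num)) hY
      _ = 9 / 16 := by norm_num
  have htn : ‖t‖ ≤ 9 / 16 := by
    calc ‖t‖ ≤ ‖f * (1 - Y * star Y)‖ * ‖f‖ := norm_mul_le _ _
      _ ≤ (‖f‖ * ‖1 - Y * star Y‖) * ‖f‖ := mul_le_mul_of_nonneg_right (norm_mul_le _ _) (norm_nonneg _)
      _ ≤ (1 * (9 / 16)) * 1 := by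
          refine mul_le_mul (mul_le_mul hfn hYY (norm_nonneg _) (by norm_num)) hfn (norm_nonneg _) (by norm_num)
      _ = 9 / 16 := by norm_num
  have hts : star t = t := by
    rw [ht, star_mul, star_mul, hfs, star_sub, star_one, star_mul, star_star, mul_assoc]
  -- the inverse of `1 - t`
  set u : Bˣ := Units.oneSub t (lt_of_le_of_lt htn (by norm_num)) with hu
  have huv : (u : B) = 1 - t := rfl
  set w : B := ((u⁻¹ : Bˣ) : B) with hw
  have hw1 : w * (1 - t) = 1 := by rw [hw, ← huv]; exact u.inv_mul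
  have hw2 : (1 - t) * w = 1 := by rw [hw, ← huv]; exact u.mul_inv
  have hws : star w = w := by
    have h3 : star w * (1 - t) = 1 := by
      have := congrArg star hw2
      rwa [star_mul, star_sub, star_one, hts] at this
    calc star w = star w * ((1 - t) * w) := by rw [hw2, mul_one]
      _ = (star w * (1 - t)) * w := by rw [mul_assoc]
      _ = w := by rw [h3, one_mul]
  have hwn : ‖w‖ ≤ 16 / 7 := by
    have h4 : w = 1 + w * t := by
      have h5 : w - w * t = 1 := by
        rw [← hw1, mul_sub, mul_one]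
      rw [← h5]
      abel
    have h6 : ‖w‖ ≤ 1 + ‖w‖ * (9 / 16) := by
      calc ‖w‖ = ‖1 + w * t‖ := by rw [← h4]
        _ ≤ ‖(1 : B)‖ + ‖w * t‖ := norm_add_le _ _
        _ ≤ 1 + ‖w‖ * ‖t‖ := add_le_add h1n (norm_mul_le _ _)
        _ ≤ 1 + ‖w‖ * (9 / 16) := by
            have := mul_le_mul_of_nonneg_left htn (norm_nonneg w)
            linarith
    linarith
  -- `f` commutes with `t` and `w`
  have hft : f * t = t := by rw [ht, ← mul_assoc, ← mul_assoc, hff]
  have htf : t * f = t := by rw [ht, mul_assoc, hff]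
  have hfw : f * w = w * f := by
    have h7 : f * (1 - t) = (1 - t) * f := by rw [mul_sub, sub_mul, mul_one, one_mul, hft, htf]
    calc f * w = (w * (1 - t)) * (f * w) := by rw [hw1, one_mul]
      _ = w * ((1 - t) * f) * w := by noncomm_ring
      _ = w * (f * (1 - t)) * w := by rw [h7]
      _ = w * f * ((1 - t) * w) := by noncomm_ring
      _ = w * f := by rw [hw2, mul_one]
  have hfYY : f * Y * star Y * f = f * (1 - t) := by
    rw [mul_sub, mul_one, hft, ht]
    rw [mul_sub, sub_mul, mul_one, hff]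
    noncomm_ring
  refine ⟨star Y * f * w * f * Y, ⟨?_, ?_⟩, ?_, ?_, ?_, ?_⟩
  · -- idempotent
    show star Y * f * w * f * Y * (star Y * f * w * f * Y) = star Y * f * w * f * Y
    calc star Y * f * w * f * Y * (star Y * f * w * f * Y)
        = star Y * f * w * (f * Y * star Y * f) * w * f * Y := by noncomm_ring
      _ = star Y * f * w * (f * (1 - t)) * w * f * Y := by rw [hfYY]
      _ = star Y * f * (w * f) * ((1 - t) * w) * f * Y := by noncomm_ring
      _ = star Y * f * (f * w) * 1 * f * Y := by rw [hw2, hfw]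
      _ = star Y * (f * f) * w * f * Y := by noncomm_ring
      _ = star Y * f * w * f * Y := by rw [hff]
  · rw [isSelfAdjoint_iff]
    simp only [star_mul, star_star, hfs, hws]
    noncomm_ring
  · calc f * Y * (star Y * f * w * f * Y) = (f * Y * star Y * f) * w * f * Y := by noncomm_ring
      _ = f * (1 - t) * w * f * Y := by rw [hfYY]
      _ = f * ((1 - t) * w) * f * Y := by noncomm_ring
      _ = f * f * Y := by rw [hw2, mul_one]
      _ = f * Y := by rw [hff]
  · intro z hz
    calc star Y * f * w * f * Y * z = star Y * f * w * (f * Y * z) := by noncomm_ring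
      _ = 0 := by rw [hz, mul_zero]
  · intro z
    calc ‖star Y * f * w * f * Y * z‖ = ‖star Y * f * w * (f * Y * z)‖ := by
          congr 1
          noncomm_ring
      _ ≤ ‖star Y * f * w‖ * ‖f * Y * z‖ := norm_mul_le _ _
      _ ≤ 3 * ‖f * Y * z‖ := by
          refine mul_le_mul_of_nonneg_right ?_ (norm_nonneg _)
          calc ‖star Y * f * w‖ ≤ ‖star Y * f‖ * ‖w‖ := norm_mul_le _ _
            _ ≤ (‖star Y‖ * ‖f‖) * ‖w‖ := mul_le_mul_of_nonneg_right (norm_mul_le _ _) (norm_nonneg _)
            _ ≤ (5 / 4 * 1) * (16 / 7) := by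
                refine mul_le_mul (mul_le_mul hYs hfn (norm_nonneg _) (by norm_num)) hwn (norm_nonneg _)
                  (by norm_num)
            _ ≤ 3 := by norm_num
  · intro S _ φ h1 h2 h3
    have h8 : φ t = 0 := by
      rw [ht]
      simp only [map_mul, map_sub, map_one, h1, h2, h3]
      simp
    have h9 : φ w = 1 := by
      have := congrArg φ hw1
      rwa [map_mul, map_sub, map_one, h8, sub_zero, mul_one] at this
    simp only [map_mul, h1, h2, h3, h9, mul_one]

end Pool.Agent.Helper18.AIU
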