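import Pool.Agent.Helper18.AIU.Cut

/-! MP_8d2143_an, part 2: an increasing sequence of projections can be continued by an increasing sequence of
projections which absorbs a given element. -/

set_option autoImplicit false

namespace Pool.Agent.Helper18.AIU

open Unitization

variable {A : Type*} [NonUnitalCStarAlgebra A]

/-- the embedding into the unitization -/
noncomputable abbrev io (a : A) : Unitization ℂ A := inr a

theorem io_mul (a b : A) : io (a * b) = io a * io b := inr_mul ℂ a b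
theorem io_sub (a b : A) : io (a - b) = io a - io b := inr_sub ℂ a b
theorem io_star (a : A) : io (star a) = star (io a) := inr_star a
theorem io_norm (a : A) : ‖io a‖ = ‖a‖ := norm_inr (𝕜 := ℂ) a
omit [NonUnitalCStarAlgebra A] in
theorem inr_inj' {a b : A} (h : (inr a : Unitization ℂ A) = inr b) : a = b := inr_injective h
theorem io_inj {a b : A} (h : io a = io b) : a = b := inr_inj' h

theorem io_pj {a : A} (h : Pj a) : Pj (io a) := by
  refine ⟨?_, ?_⟩
  · show io a * io a = io a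
    rw [← io_mul, h.1.eq]
  · rw [isSelfAdjoint_iff, ← io_star, h.2.star_eq]

theorem pj_of_io {a : A} (h : Pj (io a)) : Pj a := by
  refine ⟨io_inj ?_, ?_⟩
  · rw [io_mul]; exact h.1.eq
  · rw [isSelfAdjoint_iff]
    apply io_inj
    rw [io_star]; exact h.2.star_eq

theorem exists_io {b : Unitization ℂ A} (h : fstHom ℂ A b = 0) : ∃ a : A, io a = b := by
  refine ⟨b.snd, ?_⟩
  ext
  · rw [io, fst_inr]
    exact h.symm
  · rw [io, snd_inr]

theorem fst_io (a : A) : (fstHom ℂ A) (io a) = 0 := fst_inr ℂ a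

theorem fst_star (b : Unitization ℂ A) (h : fstHom ℂ A b = 1) : fstHom ℂ A (star b) = 1 := by
  have h1 : (star b).fst = star b.fst := rfl
  show (star b).fst = 1
  rw [h1]
  have h2 : b.fst = 1 := h
  rw [h2, star_one]

/-- cutting in `A`: `e` a projection of `A`, `Y` near `1` with scalar part `1` -/
theorem cut (e : A) (he : Pj e) (Y : Unitization ℂ A) (hY : ‖Y - 1‖ ≤ 1 / 4) (hY1 : fstHom ℂ A Y = 1) :
    ∃ q : A, Pj q ∧ (1 - io e) * Y * io q = 0 ∧ (∀ z : A, (1 - io e) * Y * io z = 0 → q * z = z) ∧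
      (∀ z : A, ‖z - q * z‖ ≤ 3 * ‖(1 - io e) * Y * io z‖) := by
  obtain ⟨c, hc, h1, h2, h3, h4⟩ := exists_cut (1 - io e) Y (io_pj he).one_sub hY
  have hc1 : fstHom ℂ A c = 1 := by
    refine h4 ℂ (fstHom ℂ A : Unitization ℂ A →+* ℂ) ?_ ?_ ?_
    · show fstHom ℂ A (1 - io e) = 1
      rw [map_sub, map_one, fst_io, sub_zero]
    · exact hY1
    · exact fst_star Y hY1
  obtain ⟨q, hq⟩ := exists_io (b := 1 - c) (by rw [map_sub, map_one, hc1, sub_self])
  have hqz : ∀ z : A, io (z - q * z) = c * io z := by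
    intro z
    rw [io_sub, io_mul, hq, sub_mul, one_mul]
    abel
  refine ⟨q, pj_of_io (by rw [hq]; exact hc.one_sub), ?_, ?_, ?_⟩
  · rw [hq, mul_sub, mul_one, h1, sub_self]
  · intro z hz
    have h5 := hqz z
    rw [h2 _ hz] at h5
    have h6 : z - q * z = 0 := io_inj (by rw [h5]; exact (inr_zero ℂ).symm)
    exact (sub_eq_zero.1 h6).symm
  · intro z
    rw [← io_norm, hqz]
    exact h3 _

/-- the hypothesis: finite sets are absorbed by projections up to `δ` -/
def HasPj (A : Type*) [NonUnitalCStarAlgebra A] : Prop :=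
  ∀ (s : Finset A) (δ : ℝ), 0 < δ → ∃ g : A, Pj g ∧ ∀ y ∈ s, ‖y - g * y‖ ≤ δ

theorem extend (hH : HasPj A) (p : A) (hp : Pj p) (s : Finset A) (ε : ℝ) (hε : 0 < ε) :
    ∃ p' : A, Pj p' ∧ p' * p = p ∧ ∀ y ∈ s, ‖y - p' * y‖ ≤ ε := by
  classical
  set M : ℝ := ∑ y ∈ s, ‖y‖ with hM
  have hM0 : 0 ≤ M := Finset.sum_nonneg fun y _ => norm_nonneg y
  set δ : ℝ := min (1 / 4) (ε / (3 * (1 + M))) with hδ
  have hδ0 : 0 < δ := lt_min (by norm_num) (by positivity)
  obtain ⟨g, hg, hgy⟩ := hH (insert p s) δ hδ0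
  have hgp : ‖p - g * p‖ ≤ δ := hgy p (Finset.mem_insert_self _ _)
  have hfp : ‖(1 - io g) * io p‖ ≤ δ := by
    rw [sub_mul, one_mul, ← io_mul, ← io_sub, io_norm]
    exact hgp
  have hff : (1 - io g) * (1 - io g) = 1 - io g := (io_pj hg).one_sub.1.eq
  have hpp : io p * io p = io p := (io_pj hp).1.eq
  obtain ⟨q, hq, h1, h2, h3⟩ := cut g hg (1 - (1 - io g) * io p)
    (by
      rw [show (1 : Unitization ℂ A) - (1 - io g) * io p - 1 = -((1 - io g) * io p) by abel, norm_neg]
      exact hfp.trans (min_le_left _ _))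
    (by rw [map_sub, map_one, map_mul, fst_io, mul_zero, sub_zero])
  refine ⟨q, hq, h2 p ?_, ?_⟩
  · calc (1 - io g) * (1 - (1 - io g) * io p) * io p
        = (1 - io g) * io p - ((1 - io g) * (1 - io g)) * (io p * io p) := by noncomm_ring
      _ = 0 := by rw [hff, hpp, sub_self]
  · intro y hy
    have hyM : ‖y‖ ≤ M := Finset.single_le_sum (f := fun y => ‖y‖) (fun y _ => norm_nonneg y) hy
    have hy1 : ‖(1 - io g) * io y‖ ≤ δ := by
      rw [sub_mul, one_mul, ← io_mul, ← io_sub, io_norm]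
      exact hgy y (Finset.mem_insert_of_mem hy)
    calc ‖y - q * y‖ ≤ 3 * ‖(1 - io g) * (1 - (1 - io g) * io p) * io y‖ := h3 y
      _ = 3 * ‖(1 - io g) * io y - ((1 - io g) * io p) * io y‖ := by
          congr 2
          calc (1 - io g) * (1 - (1 - io g) * io p) * io y
              = (1 - io g) * io y - ((1 - io g) * (1 - io g)) * io p * io y := by noncomm_ring
            _ = (1 - io g) * io y - ((1 - io g) * io p) * io y := by rw [hff]
      _ ≤ 3 * (δ + δ * M) := by
          refine mul_le_mul_of_nonneg_left ?_ (by norm_num)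
          refine (norm_sub_le _ _).trans (add_le_add hy1 ?_)
          refine (norm_mul_le _ _).trans ?_
          rw [io_norm]
          exact mul_le_mul hfp hyM (norm_nonneg _) hδ0.le
      _ = δ * (3 * (1 + M)) := by ring
      _ ≤ ε / (3 * (1 + M)) * (3 * (1 + M)) := by
          refine mul_le_mul_of_nonneg_right (min_le_right _ _) (by positivity)
      _ = ε := div_mul_cancel₀ _ (by positivity)

/-- an increasing sequence which is almost a unit for `r n` and for `x` -/
theorem exists_e (hH : HasPj A) (r : ℕ → A) (x : A) :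
    ∃ e : ℕ → A, (∀ n, Pj (e n)) ∧ (∀ n, e (n + 1) * e n = e n) ∧
      (∀ n, ‖r n - e n * r n‖ ≤ 1 / 8 * (1 / 2) ^ n) ∧ (∀ n, ‖x - e n * x‖ ≤ 1 / 8 * (1 / 2) ^ n) := by
  classical
  have step : ∀ (n : ℕ) (p : {p : A // Pj p}), ∃ p' : {p : A // Pj p}, p'.1 * p.1 = p.1 ∧
      ‖r n - p'.1 * r n‖ ≤ 1 / 8 * (1 / 2) ^ n ∧ ‖x - p'.1 * x‖ ≤ 1 / 8 * (1 / 2) ^ n := by
    intro n p
    obtain ⟨p', h1, h2, h3⟩ := extend hH p.1 p.2 {r n, x} (1 / 8 * (1 / 2) ^ n) (by positivity)
    exact ⟨⟨p', h1⟩, h2, h3 _ (by simp), h3 _ (by simp)⟩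
  choose F hF1 hF2 hF3 using step
  have h0 : Pj (0 : A) := ⟨by simp [IsIdempotentElem], by simp [isSelfAdjoint_iff]⟩
  let E : ℕ → {p : A // Pj p} := fun n => Nat.rec (F 0 ⟨0, h0⟩) (fun m p => F (m + 1) p) n
  have hE : ∀ n, E (n + 1) = F (n + 1) (E n) := fun n => rfl
  have hE0 : E 0 = F 0 ⟨0, h0⟩ := rfl
  refine ⟨fun n => (E n).1, fun n => (E n).2, fun n => hF1 (n + 1) (E n), ?_, ?_⟩
  · intro n
    cases n with
    | zero => exact hF2 0 ⟨0, h0⟩
    | succ n => exact hF2 (n + 1) (E n)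
  · intro n
    cases n with
    | zero => exact hF3 0 ⟨0, h0⟩
    | succ n => exact hF3 (n + 1) (E n)

theorem mono_of_succ {R : Type*} [Semigroup R] {e : ℕ → R} (he : ∀ n, e n * e n = e n)
    (h : ∀ n, e (n + 1) * e n = e n) : ∀ n m, n ≤ m → e m * e n = e n := by
  intro n m hnm
  induction m, hnm using Nat.le_induction with
  | base => exact he n
  | succ m _ ih => rw [← ih, ← mul_assoc, h]


end Pool.Agent.Helper18.AIU
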