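import Pool.Agent.Helper18.AIU.Main

/-! MP_8d2143_an, part 5: with an approximate identity of projections, an increasing one exists as soon as
there is a net which is eventually a left unit for each of its members. -/

set_option autoImplicit false

namespace Pool.Agent.Helper18.AIU

open Filter Topology Unitization

universe u

variable {A : Type u} [NonUnitalCStarAlgebra A]

/-- a projection which fixes what `c` fixes -/
theorem exists_above (hH : HasPj A) (c : A) : ∃ q : A, Pj q ∧ ∀ z, c * z = z → q * z = z := by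
  obtain ⟨g, hg, h1⟩ := hH {c} (1 / 4) (by norm_num)
  have hc : ‖(1 - io g) * io c‖ ≤ 1 / 4 := by
    rw [norm_f]
    exact h1 c (Finset.mem_singleton_self c)
  have hff : (1 - io g) * (1 - io g) = 1 - io g := (io_pj hg).one_sub.1.eq
  obtain ⟨q, hq, -, h2, -⟩ := cut g hg (1 - (1 - io g) * io c)
    (by rw [show (1 : Unitization ℂ A) - (1 - io g) * io c - 1 = -((1 - io g) * io c) by abel, norm_neg]
        exact hc)
    (by rw [map_sub, map_one, map_mul, fst_io, mul_zero, sub_zero])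
  refine ⟨q, hq, fun z hz => h2 z ?_⟩
  have h3 : io c * io z = io z := by rw [← io_mul, hz]
  calc (1 - io g) * (1 - (1 - io g) * io c) * io z
      = (1 - io g) * io z - ((1 - io g) * (1 - io g)) * (io c * io z) := by noncomm_ring
    _ = 0 := by rw [hff, h3, sub_self]

/-- the range projection of `w = e * q0` for `‖q0 - e * q0‖ ≤ 1 / 4` -/
theorem exists_range (hH : HasPj A) (q0 e : A) (hq0 : Pj q0) (he : ‖q0 - e * q0‖ ≤ 1 / 4) :
    ∃ q : A, Pj q ∧ q * (e * q0) = e * q0 ∧ ∀ y : A, y * (e * q0) = e * q0 → y * q = q := by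
  have hY : ‖(1 - star (io (q0 - e * q0))) - 1‖ ≤ 1 / 4 := by
    rw [show (1 : Unitization ℂ A) - star (io (q0 - e * q0)) - 1 = -star (io (q0 - e * q0)) by abel, norm_neg,
      norm_star, io_norm]
    exact he
  obtain ⟨c, hc, h1, h2, h3, -⟩ := exists_cut (io q0) (1 - star (io (q0 - e * q0))) (io_pj hq0) hY
  -- `f * Y = star (e * q0)`
  have hq00 : io q0 * io q0 = io q0 := (io_pj hq0).1.eq
  have hfY : io q0 * (1 - star (io (q0 - e * q0))) = star (io (e * q0)) := by
    have h4 : star (io q0) = io q0 := (io_pj hq0).2.star_eq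
    rw [io_sub, star_sub, io_mul, star_mul, h4]
    calc io q0 * (1 - (io q0 - io q0 * star (io e)))
        = io q0 - io q0 * io q0 + (io q0 * io q0) * star (io e) := by noncomm_ring
      _ = io q0 * star (io e) := by rw [hq00, sub_self, zero_add]
  rw [hfY] at h1
  have h2' : ∀ z, star (io (e * q0)) * z = 0 → c * z = 0 := fun z hz => h2 z (by rw [hfY]; exact hz)
  have h3' : ∀ z, ‖c * z‖ ≤ 3 * ‖star (io (e * q0)) * z‖ := fun z => by rw [← hfY]; exact h3 z
  -- `c` lies in `A`
  have hsel : ∀ n : ℕ, ∃ g : A, Pj g ∧ ‖e * q0 - g * (e * q0)‖ ≤ 1 / (n + 1 : ℝ) := by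
    intro n
    obtain ⟨g, hg, h⟩ := hH {e * q0} (1 / (n + 1 : ℝ)) (by positivity)
    exact ⟨g, hg, h _ (Finset.mem_singleton_self _)⟩
  choose g hg hgn using hsel
  have hlim : Tendsto (fun n => c * io (g n)) atTop (𝓝 c) := by
    rw [tendsto_iff_norm_sub_tendsto_zero]
    have h5 : Tendsto (fun n : ℕ => 3 * (1 / (n + 1 : ℝ))) atTop (𝓝 0) := by
      have := (tendsto_one_div_add_atTop_nhds_zero_nat (𝕜 := ℝ)).const_mul 3
      rwa [mul_zero] at this
    refine squeeze_zero (fun _ => norm_nonneg _) (fun n => ?_) h5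
    have h6 : ‖c * io (g n) - c‖ = ‖c * (1 - io (g n))‖ := by
      rw [mul_sub, mul_one, ← norm_neg, neg_sub]
    rw [h6]
    refine (h3' _).trans ?_
    refine mul_le_mul_of_nonneg_left ?_ (by norm_num)
    have h7 : star (io (e * q0)) * (1 - io (g n)) = star ((1 - io (g n)) * io (e * q0)) := by
      rw [star_mul, (io_pj (hg n)).one_sub.2.star_eq]
    rw [h7, norm_star, norm_f]
    exact hgn n
  have hcf : fstHom ℂ A c = 0 :=
    fst_lim c _ (fun n => by rw [map_mul, fst_io, mul_zero]) hlim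
  obtain ⟨q, hq⟩ := exists_io hcf
  refine ⟨q, pj_of_io (by rw [hq]; exact hc), ?_, ?_⟩
  · apply io_inj
    have h8 := congrArg star h1
    rw [star_mul, star_star, hc.2.star_eq] at h8
    rw [io_mul, hq]
    exact h8
  · intro y hy
    apply io_inj
    have h9 : star (io (e * q0)) * (1 - star (io y)) = 0 := by
      have h10 : (1 - io y) * io (e * q0) = 0 := by
        rw [sub_mul, one_mul, ← io_mul, hy, sub_self]
      have h11 := congrArg star h10
      rwa [star_mul, star_sub, star_one, star_zero] at h11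
    have h12 := congrArg star (h2' _ h9)
    rw [star_mul, star_sub, star_one, star_star, star_zero, hc.2.star_eq, sub_mul, one_mul] at h12
    rw [io_mul, hq]
    exact (sub_eq_zero.1 h12).symm

/-- the key step: above each member of the net there is a projection which is eventually fixed -/
theorem exists_fixed (hH : HasPj A) {Λ : Type*} [Preorder Λ] [IsDirected Λ (· ≤ ·)] [Nonempty Λ] (a : Λ → A)
    (ha : ∀ i, ∀ᶠ j in atTop, a j * a i = a i) (hu : ∀ x : A, Tendsto (fun i => a i * x) atTop (𝓝 x)) (i : Λ) :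
    ∃ q : A, Pj q ∧ (∀ᶠ j in atTop, a j * q = q) ∧ ∀ z, a i * z = z → q * z = z := by
  obtain ⟨q0, hq0, h0⟩ := exists_above hH (a i)
  have h1 : ∀ᶠ j in atTop, ‖q0 - a j * q0‖ ≤ 1 / 4 := by
    refine (Metric.tendsto_nhds.1 (hu q0) (1 / 4) (by norm_num)).mono fun j hj => ?_
    rw [dist_comm, dist_eq_norm] at hj
    exact hj.le
  obtain ⟨j, hj1, hj2⟩ := (h1.and (ha i)).exists
  obtain ⟨q, hq, h2, h3⟩ := exists_range hH q0 (a j) hq0 hj1
  refine ⟨q, hq, (ha j).mono fun k hk => h3 (a k) ?_, ?_⟩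
  · rw [← mul_assoc, hk]
  · intro z hz
    have h4 : q0 * z = z := h0 z hz
    have h5 : a j * z = z := by
      calc a j * z = a j * (a i * z) := by rw [hz]
        _ = (a j * a i) * z := (mul_assoc _ _ _).symm
        _ = z := by rw [hj2, hz]
    calc q * z = q * (a j * (q0 * z)) := by rw [h4, h5]
      _ = (q * (a j * q0)) * z := by simp only [mul_assoc]
      _ = z := by rw [h2, mul_assoc, h4, h5]

/-- **the equivalence, hard direction** -/
theorem main_equiv (hH : HasPj A) {Λ : Type*} [Preorder Λ] [IsDirected Λ (· ≤ ·)] [Nonempty Λ] (a : Λ → A)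
    (ha : ∀ i, ∀ᶠ j in atTop, a j * a i = a i) (hu : ∀ x : A, Tendsto (fun i => a i * x) atTop (𝓝 x)) :
    ∃ (Λ : Type u) (_ : Preorder Λ) (_ : IsDirected Λ (· ≤ ·)) (_ : Nonempty Λ) (e : Λ → A),
        (∀ i, IsIdempotentElem (e i) ∧ IsSelfAdjoint (e i)) ∧
        (∀ i j, i ≤ j → e i * e j = e i) ∧
        ∀ a : A, Tendsto (fun i => e i * a) atTop (𝓝 a) ∧
          Tendsto (fun i => a * e i) atTop (𝓝 a) := by
  have key : ∀ x : A, ∀ ε : ℝ, 0 < ε → ∃ q ∈ {p : A | Pj p ∧ ∀ᶠ j in atTop, a j * p = p}, ‖x - q * x‖ ≤ ε := by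
    intro x ε hε
    have h1 : ∀ᶠ j in atTop, ‖x - a j * x‖ ≤ ε / 2 := by
      refine (Metric.tendsto_nhds.1 (hu x) (ε / 2) (by positivity)).mono fun j hj => ?_
      rw [dist_comm, dist_eq_norm] at hj
      exact hj.le
    obtain ⟨i, hi⟩ := h1.exists
    obtain ⟨j, hj⟩ := (ha i).exists
    obtain ⟨q, hq, h2, h3⟩ := exists_fixed hH a ha hu j
    refine ⟨q, ⟨hq, h2⟩, ?_⟩
    have h4 : q * a i = a i := h3 _ hj
    have h5 : x - q * x = (x - a i * x) - q * (x - a i * x) := by
      rw [mul_sub, ← mul_assoc, h4]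
      abel
    have h6 : ‖q * (x - a i * x)‖ ≤ 1 * (ε / 2) := by
      refine (norm_mul_le _ _).trans ?_
      exact mul_le_mul hq.norm_le hi (norm_nonneg _) zero_le_one
    rw [h5]
    calc ‖(x - a i * x) - q * (x - a i * x)‖ ≤ ‖x - a i * x‖ + ‖q * (x - a i * x)‖ := norm_sub_le _ _
      _ ≤ ε / 2 + 1 * (ε / 2) := add_le_add hi h6
      _ = ε := by ring
  refine net_of_directed {p : A | Pj p ∧ ∀ᶠ j in atTop, a j * p = p} ?_ (fun p hp => hp.1) ?_ key
  · obtain ⟨q, hq, -⟩ := key 0 1 one_pos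
    exact ⟨q, hq⟩
  · rintro p ⟨hp, hp1⟩ p' ⟨hp', hp1'⟩
    obtain ⟨i, hi, hi'⟩ := (hp1.and hp1').exists
    obtain ⟨q, hq, h2, h3⟩ := exists_fixed hH a ha hu i
    exact ⟨q, ⟨hq, h2⟩, h3 p hi, h3 p' hi'⟩

end Pool.Agent.Helper18.AIU
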