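import Pool.Agent.Helper18.AIU.Rec

/-! MP_8d2143_an, part 4: nets and directed sets of projections. -/

set_option autoImplicit false

namespace Pool.Agent.Helper18.AIU

open Filter Topology

universe u

theorem hasPj_of_net {A : Type u} [NonUnitalCStarAlgebra A] {Λ : Type*} [Preorder Λ] [IsDirected Λ (· ≤ ·)]
    [Nonempty Λ] (e : Λ → A) (he : ∀ i, IsIdempotentElem (e i) ∧ IsSelfAdjoint (e i))
    (ha : ∀ a : A, Tendsto (fun i => e i * a) atTop (𝓝 a)) : HasPj A := by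
  intro s δ hδ
  have h : ∀ᶠ i in atTop, ∀ y ∈ s, ‖y - e i * y‖ ≤ δ := by
    rw [Filter.eventually_all_finset]
    intro y _
    refine (Metric.tendsto_nhds.1 (ha y) δ hδ).mono fun i hi => ?_
    rw [dist_comm, dist_eq_norm] at hi
    exact hi.le
  obtain ⟨i, hi⟩ := h.exists
  exact ⟨e i, he i, hi⟩

/-- the order on a set of projections -/
@[reducible] def ord {A : Type u} [NonUnitalCStarAlgebra A] (P : Set A) (hP : ∀ p ∈ P, Pj p) : Preorder P where
  le p q := q.1 * p.1 = p.1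
  le_refl p := (hP p.1 p.2).1.eq
  le_trans _ _ _ h1 h2 := le_trans' h1 h2

theorem net_of_directed {A : Type u} [NonUnitalCStarAlgebra A] (P : Set A) (hne : P.Nonempty)
    (hP : ∀ p ∈ P, Pj p) (hd : ∀ p ∈ P, ∀ q ∈ P, ∃ r ∈ P, r * p = p ∧ r * q = q)
    (hu : ∀ a : A, ∀ ε : ℝ, 0 < ε → ∃ q ∈ P, ‖a - q * a‖ ≤ ε) :
    ∃ (Λ : Type u) (_ : Preorder Λ) (_ : IsDirected Λ (· ≤ ·)) (_ : Nonempty Λ) (e : Λ → A),
        (∀ i, IsIdempotentElem (e i) ∧ IsSelfAdjoint (e i)) ∧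
        (∀ i j, i ≤ j → e i * e j = e i) ∧
        ∀ a : A, Tendsto (fun i => e i * a) atTop (𝓝 a) ∧
          Tendsto (fun i => a * e i) atTop (𝓝 a) := by
  let _ : Preorder P := ord P hP
  have hdir : IsDirected P (· ≤ ·) := by
    refine ⟨fun p q => ?_⟩
    obtain ⟨r, hr, h1, h2⟩ := hd p.1 p.2 q.1 q.2
    exact ⟨⟨r, hr⟩, h1, h2⟩
  have hnon : Nonempty P := hne.to_subtype
  have hleft : ∀ a : A, Tendsto (fun i : P => i.1 * a) atTop (𝓝 a) := by
    intro a
    rw [Metric.tendsto_nhds]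
    intro ε hε
    obtain ⟨q, hq, h1⟩ := hu a (ε / 3) (by positivity)
    refine (eventually_ge_atTop (⟨q, hq⟩ : P)).mono ?_
    intro p hp
    have h2 : p.1 * q = q := hp
    rw [dist_comm, dist_eq_norm]
    have h3 : a - p.1 * a = (a - q * a) - p.1 * (a - q * a) := by
      rw [mul_sub, ← mul_assoc, h2]
      abel
    rw [h3]
    have h4 : ‖p.1 * (a - q * a)‖ ≤ 1 * (ε / 3) := by
      refine (norm_mul_le _ _).trans ?_
      exact mul_le_mul (hP p.1 p.2).norm_le h1 (norm_nonneg _) zero_le_one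
    calc ‖(a - q * a) - p.1 * (a - q * a)‖ ≤ ‖a - q * a‖ + ‖p.1 * (a - q * a)‖ := norm_sub_le _ _
      _ ≤ ε / 3 + 1 * (ε / 3) := add_le_add h1 h4
      _ < ε := by linarith
  refine ⟨P, inferInstance, hdir, hnon, fun p => p.1, fun p => hP p.1 p.2, ?_, ?_⟩
  · intro p q hpq
    have h1 : q.1 * p.1 = p.1 := hpq
    have h2 := congrArg star h1
    rwa [star_mul, (hP p.1 p.2).2.star_eq, (hP q.1 q.2).2.star_eq] at h2
  · intro a
    refine ⟨hleft a, ?_⟩
    have h1 := (hleft (star a)).star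
    rw [star_star] at h1
    refine h1.congr fun p => ?_
    rw [star_mul, star_star, (hP p.1 p.2).2.star_eq]

/-- what a directed set of projections absorbs is a closed right ideal -/
theorem absorb_closure {A : Type u} [NonUnitalCStarAlgebra A] (P : Set A) (hne : P.Nonempty)
    (hP : ∀ p ∈ P, Pj p) (hd : ∀ p ∈ P, ∀ q ∈ P, ∃ r ∈ P, r * p = p ∧ r * q = q) (X : Set A)
    (hx : ∀ x ∈ X, ∀ ε : ℝ, 0 < ε → ∃ q ∈ P, ‖x - q * x‖ ≤ ε)
    (hXA : Dense (AddSubgroup.closure {y : A | ∃ x ∈ X, ∃ b : A, y = x * b} : Set A)) :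
    ∀ a : A, ∀ ε : ℝ, 0 < ε → ∃ q ∈ P, ‖a - q * a‖ ≤ ε := by
  have hle : ∀ a : A, ∀ q ∈ P, ‖a - q * a‖ ≤ 2 * ‖a‖ := by
    intro a q hq
    have h1 : ‖q * a‖ ≤ 1 * ‖a‖ :=
      (norm_mul_le _ _).trans (mul_le_mul_of_nonneg_right (hP q hq).norm_le (norm_nonneg _))
    calc ‖a - q * a‖ ≤ ‖a‖ + ‖q * a‖ := norm_sub_le _ _
      _ ≤ ‖a‖ + 1 * ‖a‖ := add_le_add le_rfl h1
      _ = 2 * ‖a‖ := by ring
  have hmono : ∀ a : A, ∀ q ∈ P, ∀ r ∈ P, r * q = q → ‖a - r * a‖ ≤ 2 * ‖a - q * a‖ := by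
    intro a q _ r hr hrq
    have h1 : a - r * a = (a - q * a) - r * (a - q * a) := by
      rw [mul_sub, ← mul_assoc, hrq]
      abel
    rw [h1]
    exact hle _ r hr
  have hcl : ∀ a ∈ AddSubgroup.closure {y : A | ∃ x ∈ X, ∃ b : A, y = x * b},
      ∀ ε : ℝ, 0 < ε → ∃ q ∈ P, ‖a - q * a‖ ≤ ε := by
    intro a ha
    induction ha using AddSubgroup.closure_induction with
    | mem y hy =>
        obtain ⟨x, hxX, b, rfl⟩ := hy
        intro ε hε
        obtain ⟨q, hq, h1⟩ := hx x hxX (ε / (1 + ‖b‖)) (by positivity)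
        refine ⟨q, hq, ?_⟩
        rw [← mul_assoc, ← sub_mul]
        calc ‖(x - q * x) * b‖ ≤ ‖x - q * x‖ * ‖b‖ := norm_mul_le _ _
          _ ≤ (ε / (1 + ‖b‖)) * (1 + ‖b‖) := mul_le_mul h1 (by linarith) (norm_nonneg _) (by positivity)
          _ = ε := div_mul_cancel₀ _ (by positivity)
    | zero =>
        intro ε hε
        obtain ⟨q, hq⟩ := hne
        refine ⟨q, hq, ?_⟩
        rw [mul_zero, sub_zero, norm_zero]
        exact hε.le
    | add y z _ _ hy hz =>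
        intro ε hε
        obtain ⟨q, hq, h1⟩ := hy (ε / 4) (by positivity)
        obtain ⟨q', hq', h2⟩ := hz (ε / 4) (by positivity)
        obtain ⟨r, hr, h3, h4⟩ := hd q hq q' hq'
        refine ⟨r, hr, ?_⟩
        have h5 : (y + z) - r * (y + z) = (y - r * y) + (z - r * z) := by
          rw [mul_add]
          abel
        rw [h5]
        calc ‖(y - r * y) + (z - r * z)‖ ≤ ‖y - r * y‖ + ‖z - r * z‖ := norm_add_le _ _
          _ ≤ 2 * ‖y - q * y‖ + 2 * ‖z - q' * z‖ := add_le_add (hmono y q hq r hr h3) (hmono z q' hq' r hr h4)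
          _ ≤ ε := by linarith
    | neg y _ hy =>
        intro ε hε
        obtain ⟨q, hq, h1⟩ := hy ε hε
        refine ⟨q, hq, ?_⟩
        rw [show -y - q * (-y) = -(y - q * y) by rw [mul_neg]; abel, norm_neg]
        exact h1
  intro a ε hε
  obtain ⟨a', ha', h1⟩ := Metric.dense_iff.1 hXA a (ε / 4) (by positivity)
  have h2 : ‖a - a'‖ ≤ ε / 4 := by
    rw [Metric.mem_ball, dist_comm, dist_eq_norm] at ha'
    exact ha'.le
  obtain ⟨q, hq, h3⟩ := hcl a' h1 (ε / 2) (by positivity)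
  refine ⟨q, hq, ?_⟩
  have h4 : a - q * a = ((a - a') - q * (a - a')) + (a' - q * a') := by
    rw [mul_sub]
    abel
  rw [h4]
  calc ‖((a - a') - q * (a - a')) + (a' - q * a')‖ ≤ ‖(a - a') - q * (a - a')‖ + ‖a' - q * a'‖ :=
        norm_add_le _ _
    _ ≤ 2 * ‖a - a'‖ + ε / 2 := add_le_add (hle _ q hq) h3
    _ ≤ ε := by linarith

/-- **algebras generated by `ℵ₁` elements as closed right ideals** -/
theorem main_omega {A : Type u} [NonUnitalCStarAlgebra A] (X : Set A) (hX : Cardinal.mk X ≤ Cardinal.aleph 1)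
    (hXA : Dense (AddSubgroup.closure {y : A | ∃ x ∈ X, ∃ b : A, y = x * b} : Set A)) (hH : HasPj A) :
    ∃ (Λ : Type u) (_ : Preorder Λ) (_ : IsDirected Λ (· ≤ ·)) (_ : Nonempty Λ) (e : Λ → A),
        (∀ i, IsIdempotentElem (e i) ∧ IsSelfAdjoint (e i)) ∧
        (∀ i j, i ≤ j → e i * e j = e i) ∧
        ∀ a : A, Tendsto (fun i => e i * a) atTop (𝓝 a) ∧
          Tendsto (fun i => a * e i) atTop (𝓝 a) := by
  obtain ⟨P, hne, hP, hd, hx⟩ := exists_directed hH X hX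
  exact net_of_directed P hne hP hd (absorb_closure P hne hP hd X hx hXA)

end Pool.Agent.Helper18.AIU
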