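import Pool.Agent.Helper18.AIU.Absorb

/-! MP_8d2143_an, part 3: the recursion over the first uncountable ordinal. -/

set_option autoImplicit false

namespace Pool.Agent.Helper18.AIU

open Filter Topology

variable {A : Type*} [NonUnitalCStarAlgebra A]

/-- countable directed sets of projections -/
def Good (G : Set A) : Prop :=
  G.Countable ∧ (∀ p ∈ G, Pj p) ∧ ∀ p ∈ G, ∀ q ∈ G, ∃ r ∈ G, r * p = p ∧ r * q = q

theorem le_trans' {p q r : A} (h1 : q * p = p) (h2 : r * q = q) : r * p = p := by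
  calc r * p = r * (q * p) := by rw [h1]
    _ = p := by rw [← mul_assoc, h2, h1]

theorem pj_zero : Pj (0 : A) := ⟨mul_zero _, star_zero _⟩

/-- a cofinal increasing sequence -/
theorem Good.exists_seq {G : Set A} (hG : Good G) :
    ∃ r : ℕ → A, (∀ n, Pj (r n)) ∧ (∀ n, r (n + 1) * r n = r n) ∧ ∀ p ∈ G, ∃ n, r n * p = p := by
  classical
  rcases G.eq_empty_or_nonempty with h0 | h0
  · refine ⟨fun _ => 0, fun _ => pj_zero, fun _ => mul_zero _, ?_⟩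
    intro p hp
    rw [h0] at hp
    exact absurd hp (Set.notMem_empty p)
  · obtain ⟨hc, hp, hd⟩ := hG
    obtain ⟨f, hf⟩ := hc.exists_eq_range h0
    have hfG : ∀ n, f n ∈ G := fun n => by rw [hf]; exact ⟨n, rfl⟩
    have step : ∀ p q : G, ∃ r : G, r.1 * p.1 = p.1 ∧ r.1 * q.1 = q.1 := by
      intro p q
      obtain ⟨r, hr, h1, h2⟩ := hd p.1 p.2 q.1 q.2
      exact ⟨⟨r, hr⟩, h1, h2⟩
    choose J hJ1 hJ2 using step
    let E : ℕ → G := fun n => Nat.rec (⟨f 0, hfG 0⟩ : G) (fun m p => J p ⟨f (m + 1), hfG (m + 1)⟩) n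
    have hE : ∀ n, E (n + 1) = J (E n) ⟨f (n + 1), hfG (n + 1)⟩ := fun n => rfl
    have hE0 : E 0 = ⟨f 0, hfG 0⟩ := rfl
    refine ⟨fun n => (E n).1, fun n => hp _ (E n).2, fun n => hJ1 (E n) ⟨f (n + 1), hfG (n + 1)⟩, ?_⟩
    intro p hpG
    rw [hf] at hpG
    obtain ⟨n, rfl⟩ := hpG
    refine ⟨n, ?_⟩
    cases n with
    | zero =>
        show (E 0).1 * f 0 = f 0
        rw [hE0]
        exact (hp _ (hfG 0)).1.eq
    | succ n => exact hJ2 (E n) ⟨f (n + 1), hfG (n + 1)⟩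

/-- one step -/
theorem Good.step (hH : HasPj A) {G : Set A} (hG : Good G) (x : A) :
    ∃ G' : Set A, G ⊆ G' ∧ Good G' ∧ ∀ ε : ℝ, 0 < ε → ∃ q ∈ G', ‖x - q * x‖ ≤ ε := by
  obtain ⟨r, hr, hrm, hrc⟩ := hG.exists_seq
  obtain ⟨q, hq, hqm, hqr, hqx⟩ := absorb hH r hr hrm x
  have key : ∀ p ∈ G ∪ Set.range q, ∃ n, q n * p = p := by
    rintro p (hp | ⟨n, rfl⟩)
    · obtain ⟨n, hn⟩ := hrc p hp
      exact ⟨n, le_trans' hn (hqr n)⟩
    · exact ⟨n, (hq n).1.eq⟩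
  refine ⟨G ∪ Set.range q, Set.subset_union_left, ⟨hG.1.union (Set.countable_range q), ?_, ?_⟩, ?_⟩
  · rintro p (hp | ⟨n, rfl⟩)
    · exact hG.2.1 p hp
    · exact hq n
  · intro p hp p' hp'
    obtain ⟨n, hn⟩ := key p hp
    obtain ⟨m, hm⟩ := key p' hp'
    exact ⟨q (max n m), Or.inr ⟨_, rfl⟩, le_trans' hn (hqm n _ (le_max_left _ _)),
      le_trans' hm (hqm m _ (le_max_right _ _))⟩
  · intro ε hε
    obtain ⟨n, hn⟩ := hqx ε hε
    exact ⟨q n, Or.inr ⟨n, rfl⟩, hn⟩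

open Classical in
/-- the chosen step -/
noncomputable def st (G : Set A) (x : A) : Set A :=
  if h : ∃ G' : Set A, G ⊆ G' ∧ Good G' ∧ ∀ ε : ℝ, 0 < ε → ∃ q ∈ G', ‖x - q * x‖ ≤ ε then
    Classical.choose h else ∅

theorem st_spec (hH : HasPj A) {G : Set A} (hG : Good G) (x : A) :
    G ⊆ st G x ∧ Good (st G x) ∧ ∀ ε : ℝ, 0 < ε → ∃ q ∈ st G x, ‖x - q * x‖ ≤ ε := by
  have h := hG.step hH x
  have h1 : st G x = Classical.choose h := dif_pos h
  rw [h1]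
  exact Classical.choose_spec h

variable {I : Type*} [LinearOrder I] [WellFoundedLT I]

/-- the recursion -/
noncomputable def tower (x : I → A) : I → Set A :=
  WellFounded.fix (r := ((· < ·) : I → I → Prop)) wellFounded_lt
    (fun i rec => st (⋃ (j : I) (h : j < i), rec j h) (x i))

theorem tower_eq (x : I → A) (i : I) : tower x i = st (⋃ (j : I) (_ : j < i), tower x j) (x i) :=
  WellFounded.fix_eq _ _ _

theorem good_iUnion {J : Type*} [LinearOrder J] (F : J → Set A) (hc : (⋃ j, F j).Countable)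
    (hm : ∀ j k, j ≤ k → F j ⊆ F k) (hF : ∀ j, Good (F j)) : Good (⋃ j, F j) := by
  refine ⟨hc, ?_, ?_⟩
  · intro p hp
    obtain ⟨j, hj⟩ := Set.mem_iUnion.1 hp
    exact (hF j).2.1 p hj
  · intro p hp q hq
    obtain ⟨j, hj⟩ := Set.mem_iUnion.1 hp
    obtain ⟨k, hk⟩ := Set.mem_iUnion.1 hq
    obtain ⟨r, hr, h1⟩ := (hF (max j k)).2.2 p (hm j _ (le_max_left _ _) hj) q (hm k _ (le_max_right _ _) hk)
    exact ⟨r, Set.mem_iUnion.2 ⟨_, hr⟩, h1⟩

theorem tower_spec (hH : HasPj A) (hI : ∀ i : I, (Set.Iio i).Countable) (x : I → A) (i : I) :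
    Good (tower x i) ∧ (∀ j, j ≤ i → tower x j ⊆ tower x i) ∧
      ∀ ε : ℝ, 0 < ε → ∃ q ∈ tower x i, ‖x i - q * x i‖ ≤ ε := by
  induction i using WellFoundedLT.induction with
  | ind i ih =>
    have hU : Good (⋃ (j : I) (_ : j < i), tower x j) := by
      have h1 : (⋃ (j : I) (_ : j < i), tower x j) = ⋃ j : Set.Iio i, tower x j.1 := by
        ext p
        simp only [Set.mem_iUnion]
        constructor
        · rintro ⟨j, hj, hp⟩
          exact ⟨⟨j, hj⟩, hp⟩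
        · rintro ⟨⟨j, hj⟩, hp⟩
          exact ⟨j, hj, hp⟩
      rw [h1]
      have : Countable (Set.Iio i) := (hI i).to_subtype
      refine good_iUnion _ (Set.countable_iUnion fun j => (ih j.1 j.2).1.1) ?_ fun j => (ih j.1 j.2).1
      intro j k hjk
      exact (ih k.1 k.2).2.1 j.1 hjk
    obtain ⟨h2, h3, h4⟩ := st_spec hH hU (x i)
    rw [tower_eq x i]
    refine ⟨h3, ?_, h4⟩
    intro j hj
    rcases hj.lt_or_eq with hj | rfl
    · refine subset_trans ?_ h2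
      intro p hp
      exact Set.mem_iUnion.2 ⟨j, Set.mem_iUnion.2 ⟨hj, hp⟩⟩
    · rw [tower_eq x j]

/-- a directed set of projections absorbing at most `ℵ₁` elements -/
theorem exists_directed (hH : HasPj A) (X : Set A) (hX : Cardinal.mk X ≤ Cardinal.aleph 1) :
    ∃ P : Set A, P.Nonempty ∧ (∀ p ∈ P, Pj p) ∧ (∀ p ∈ P, ∀ q ∈ P, ∃ r ∈ P, r * p = p ∧ r * q = q) ∧
      ∀ x ∈ X, ∀ ε : ℝ, 0 < ε → ∃ q ∈ P, ‖x - q * x‖ ≤ ε := by
  classical
  let κ : Cardinal := Cardinal.aleph 1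
  have hκ : Cardinal.mk X ≤ Cardinal.mk κ.ord.ToType := by rw [Cardinal.mk_ord_toType]; exact hX
  obtain ⟨f⟩ := hκ
  have hI : ∀ i : κ.ord.ToType, (Set.Iio i).Countable := by
    intro i
    have h1 : Cardinal.mk (Set.Iio i) < κ := by
      have h2 := Cardinal.mk_Iio_lt i (by simp)
      rwa [Cardinal.mk_ord_toType] at h2
    rw [← Cardinal.le_aleph0_iff_set_countable, ← Cardinal.lt_aleph_one_iff]
    exact h1
  have hne : Nonempty κ.ord.ToType := by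
    rw [← Cardinal.mk_ne_zero_iff, Cardinal.mk_ord_toType]
    exact (Cardinal.aleph_pos 1).ne'
  let x : κ.ord.ToType → A := Function.extend f (fun y : X => y.1) (fun _ => 0)
  have hs := tower_spec hH hI x
  refine ⟨⋃ i, tower x i, ?_, ?_, ?_, ?_⟩
  · obtain ⟨i⟩ := hne
    obtain ⟨q, hq, _⟩ := (hs i).2.2 1 one_pos
    exact ⟨q, Set.mem_iUnion.2 ⟨i, hq⟩⟩
  · intro p hp
    obtain ⟨j, hj⟩ := Set.mem_iUnion.1 hp
    exact (hs j).1.2.1 p hj
  · intro p hp q hq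
    obtain ⟨j, hj⟩ := Set.mem_iUnion.1 hp
    obtain ⟨k, hk⟩ := Set.mem_iUnion.1 hq
    obtain ⟨r, hr, h1⟩ := (hs (max j k)).1.2.2 p ((hs _).2.1 j (le_max_left _ _) hj)
      q ((hs _).2.1 k (le_max_right _ _) hk)
    exact ⟨r, Set.mem_iUnion.2 ⟨_, hr⟩, h1⟩
  · intro y hy ε hε
    obtain ⟨q, hq, h1⟩ := (hs (f ⟨y, hy⟩)).2.2 ε hε
    refine ⟨q, Set.mem_iUnion.2 ⟨_, hq⟩, ?_⟩
    have h2 : x (f ⟨y, hy⟩) = y := f.injective.extend_apply _ _ _
    rwa [h2] at h1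

end Pool.Agent.Helper18.AIU
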